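import Mathlib
import Pool.Agent.Lib.helper21.NS

set_option autoImplicit false

open Cardinal Set Pool.Agent.Lib.helper21.NS

namespace Pool.Agent.H.MP_77bbd4_lc

variable {X : Type} [LinearOrder X]

/-- splitting the points of countable cofinality -/
theorem splitE [WellFoundedLT X] (R : Reg X) :
    ∃ g : X → X, #X ≤ #{y | ¬ J {x ∈ E X | g x = y}} := by
  classical
  have := R.nonempty
  have hc : ∀ x : X, ∃ a : ℕ → X, x ∈ E X → (∀ n, a n < x) ∧ ∀ y, y < x → ∃ n, y ≤ a n := by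
    intro x
    by_cases hx : x ∈ E X
    · obtain ⟨a, ha⟩ := hx
      exact ⟨a, fun _ => ha⟩
    · exact ⟨fun _ => x, fun h => absurd h hx⟩
  choose a ha using hc
  have h1 : ∃ n, ∀ b, ¬ J {x ∈ E X | b ≤ a x n} := by
    by_contra hcon
    push Not at hcon
    choose b hb using hcon
    obtain ⟨c, hc⟩ := R.bdd (range b) (lt_of_le_of_lt (by simpa using mk_range_le (f := b)) R.unc)
    refine not_J_E R ((J_union R (J_bdd (bddAbove_Iic (a := c))) (J_iUnion R _ hb)).mono ?_)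
    intro x hx
    by_cases hxc : x ≤ c
    · exact Or.inl hxc
    · obtain ⟨n, hn⟩ := (ha x hx).2 c (not_le.1 hxc)
      exact Or.inr (mem_iUnion.2 ⟨n, hx, (hc ⟨n, rfl⟩).trans hn⟩)
  obtain ⟨n, hn⟩ := h1
  refine ⟨fun x => a x n, ?_⟩
  by_contra hlt
  obtain ⟨c, hc⟩ := R.bdd _ (not_le.1 hlt)
  obtain ⟨b, hb⟩ := R.exists_gt c
  refine hn b (fodor R (fun x => a x n) (fun x hx => (ha x hx.1).1 n) (fun y => ?_))
  by_cases hy : J {x ∈ E X | a x n = y}
  · exact hy.mono (fun x hx => ⟨hx.1.1, hx.2⟩)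
  · refine (J_empty R).mono ?_
    rintro x ⟨⟨-, h1⟩, h2⟩
    exact absurd ((h1.trans h2.le).trans (hc hy)) (not_le.2 hb)

/-- a positive set contains a closure point -/
theorem closure_pt {T : Set X} (hT : ¬ J T) (F : X → X) : ∃ x ∈ T, ∀ a, a < x → F a < x := by
  classical
  by_contra h
  push Not at h
  choose! f h1 h2 using h
  exact hT ⟨f, fun x hx _ => h1 x hx, fun y => ⟨F y, fun x hx => hx.2 ▸ h2 x hx.1⟩⟩

def Lim (s : Set X) (x : X) : Prop := (∃ y, y < x) ∧ ∀ y, y < x → ∃ z ∈ s, y < z ∧ z < x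

def EE (s t : Set X) : Prop := s ⊆ t ∧ ∀ x ∈ t, ∀ y ∈ s, x ≤ y → x ∈ s

def Cond (κ : Cardinal.{0}) (T s : Set X) : Prop := #s ≤ κ ∧ ∀ x ∈ T, ¬ Lim s x

theorem EE.refl (s : Set X) : EE s s := ⟨Subset.rfl, fun _ hx _ _ _ => hx⟩

theorem EE.trans {s t u : Set X} (h : EE s t) (h' : EE t u) : EE s u :=
  ⟨h.1.trans h'.1, fun x hx y hy hxy => h.2 x (h'.2 x hx y (h.1 hy) hxy) y hy hxy⟩

theorem Lim.of_insert {s : Set X} {c x : X} (h : Lim (insert c s) x) : Lim s x := by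
  refine ⟨h.1, fun y hy => ?_⟩
  by_cases hc : c < x
  · obtain ⟨z, hz, h1, h2⟩ := h.2 (max y c) (max_lt hy hc)
    rcases hz with rfl | hz
    · exact absurd (le_max_right y z) (not_le.2 h1)
    · exact ⟨z, hz, (le_max_left _ _).trans_lt h1, h2⟩
  · obtain ⟨z, hz, h1, h2⟩ := h.2 y hy
    rcases hz with rfl | hz
    · exact absurd h2 hc
    · exact ⟨z, hz, h1, h2⟩

theorem EE_insert {s : Set X} {c : X} (h : ∀ y ∈ s, y < c) : EE s (insert c s) := by
  refine ⟨subset_insert _ _, fun x hx y hy hxy => ?_⟩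
  rcases hx with rfl | hx
  · exact absurd (h y hy) (not_lt.2 hxy)
  · exact hx

theorem Cond.insert {κ : Cardinal.{0}} (hκ : ℵ₀ ≤ κ) {T s : Set X} (h : Cond κ T s) (c : X) :
    Cond κ T (insert c s) :=
  ⟨mk_insert_le.trans (add_le_of_le hκ h.1 (one_le_aleph0.trans hκ)),
    fun x hx hl => h.2 x hx hl.of_insert⟩

def P (κ : Cardinal.{0}) (T : Set X) : Type := {s : Set X // Cond κ T s}

instance (κ : Cardinal.{0}) (T : Set X) : PartialOrder (P κ T) where
  le t s := EE s.1 t.1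
  le_refl s := EE.refl _
  le_trans _ _ _ h h' := EE.trans h' h
  le_antisymm _ _ h h' := Subtype.ext (Subset.antisymm h'.1 h.1)

instance (κ : Cardinal.{0}) (T : Set X) : OrderTop (P κ T) where
  top := ⟨∅, by simp, fun x _ h => by
    obtain ⟨y, hy⟩ := h.1
    obtain ⟨z, hz, -⟩ := h.2 y hy
    exact hz⟩
  le_top s := ⟨empty_subset _, fun _ _ _ hy => absurd hy (notMem_empty _)⟩

theorem le_iff {κ : Cardinal.{0}} {T : Set X} (s t : P κ T) : t ≤ s ↔ EE s.1 t.1 := Iff.rfl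

/-- strict bounds for small families of small sets -/
theorem bound (R : Reg X) {κ : Cardinal.{0}} (hκ : κ < #X) {ι : Type} (hι : #ι < #X)
    (s : ι → Set X) (hs : ∀ i, #(s i) ≤ κ) (a : X) : ∃ b, a < b ∧ ∀ i, ∀ y ∈ s i, y < b := by
  obtain ⟨c, hc⟩ := R.bdd_iUnion hι s (fun i => R.bdd _ ((hs i).trans_lt hκ))
  obtain ⟨b, hb⟩ := R.exists_gt (max a c)
  exact ⟨b, (le_max_left _ _).trans_lt hb, fun i y hy =>
    (hc (mem_iUnion.2 ⟨i, hy⟩)).trans_lt ((le_max_right _ _).trans_lt hb)⟩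

/-- the run along a continuous sequence avoiding `T` -/
theorem run {κ : Cardinal.{0}} (hκ : ℵ₀ ≤ κ) {K : Type} [LinearOrder K] [WellFoundedLT K]
    (hK : #K ≤ κ) (T : Set X) (F : X → X) (a0 : X) (c : K → X)
    (hc1 : ∀ k, a0 ≤ c k) (hc2 : ∀ j k, j < k → F (c j) ≤ c k)
    (hc3 : ∀ k w, a0 ≤ w → (∀ j, j < k → F (c j) ≤ w) → c k ≤ w)
    (hT : ∀ k, c k ∉ T) (e : K → Set X → Set X)
    (he : ∀ k s, Cond κ T s → Cond κ T (e k s) ∧ EE s (e k s))
    (hF : ∀ k s a, Cond κ T s → s ⊆ Iic a → ∀ y ∈ e k s, y < F a)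
    (p : Set X) (hp : Cond κ T p) (hp0 : ∀ y ∈ p, y < a0) :
    ∃ s : K → Set X, (∀ k, ∃ u, Cond κ T u ∧ s k = e k u) ∧ (∀ k, EE p (s k)) ∧
      ∀ j k, j < k → EE (s j) (s k) := by
  let G : ∀ k : K, (∀ j, j < k → Set X) → Set X := fun k g =>
    e k (insert (c k) (p ∪ ⋃ j : Iio k, g j.1 j.2))
  let s : K → Set X := (wellFounded_lt (α := K)).fix G
  let U : K → Set X := fun k => p ∪ ⋃ j : Iio k, s j.1
  have hs : ∀ k, s k = e k (insert (c k) (U k)) := fun k => (wellFounded_lt (α := K)).fix_eq G k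
  have key : ∀ k, Cond κ T (U k) ∧ (∀ y ∈ U k, y < c k) ∧ EE p (U k) ∧
      ∀ j, j < k → EE (s j) (U k) := by
    intro k
    induction k using (wellFounded_lt (α := K)).induction with
    | _ k ih =>
    have h1 : ∀ j, j < k → Cond κ T (s j) := fun j hj =>
      hs j ▸ (he j _ ((ih j hj).1.insert hκ _)).1
    have h2' : ∀ j, j < k → EE (insert (c j) (U j)) (s j) := fun j hj =>
      hs j ▸ (he j _ ((ih j hj).1.insert hκ _)).2
    have h2 : ∀ j, j < k → EE (U j) (s j) := fun j hj =>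
      (EE_insert (ih j hj).2.1).trans (h2' j hj)
    have h3 : ∀ j, j < k → ∀ y ∈ s j, y < F (c j) := fun j hj => by
      rw [hs j]
      refine hF j _ _ ((ih j hj).1.insert hκ _) ?_
      rintro y (rfl | hy)
      · exact le_rfl
      · exact ((ih j hj).2.1 y hy).le
    have h4 : ∀ j, j < k → EE p (s j) := fun j hj => (ih j hj).2.2.1.trans (h2 j hj)
    have h5 : ∀ i j, i < j → j < k → EE (s i) (s j) := fun i j hi hj =>
      ((ih j hj).2.2.2 i hi).trans (h2 j hj)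
    have hmem : ∀ y, y ∈ U k ↔ y ∈ p ∨ ∃ j, j < k ∧ y ∈ s j := fun y => by
      simp only [U, mem_union, mem_iUnion]
      exact or_congr Iff.rfl ⟨fun ⟨j, hj⟩ => ⟨j.1, j.2, hj⟩, fun ⟨j, h, hj⟩ => ⟨⟨j, h⟩, hj⟩⟩
    have hb : ∀ y ∈ U k, y < c k := fun y hy => by
      rcases (hmem y).1 hy with hy | ⟨j, hj, hy⟩
      · exact (hp0 y hy).trans_le (hc1 k)
      · exact (h3 j hj y hy).trans_le (hc2 j k hj)
    have hE : ∀ j, j < k → EE (s j) (U k) := fun j hj => by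
      refine ⟨fun y hy => (hmem y).2 (Or.inr ⟨j, hj, hy⟩), fun x hx y hy hxy => ?_⟩
      rcases (hmem x).1 hx with hx | ⟨i, hi, hx⟩
      · exact (h4 j hj).1 hx
      · rcases lt_trichotomy i j with h | rfl | h
        · exact (h5 i j h hj).1 hx
        · exact hx
        · exact (h5 j i h hi).2 x hx y hy hxy
    have hEp : EE p (U k) := by
      refine ⟨subset_union_left, fun x hx y hy hxy => ?_⟩
      rcases (hmem x).1 hx with hx | ⟨i, hi, hx⟩
      · exact hx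
      · exact (h4 i hi).2 x hx y hy hxy
    refine ⟨⟨?_, fun x hx hl => ?_⟩, hb, hEp, hE⟩
    · refine (mk_union_le _ _).trans (add_le_of_le hκ hp.1 ?_)
      refine mk_iUnion_le_sum_mk.trans ?_
      refine (sum_le_sum _ (fun _ => κ) fun j : Iio k => (h1 j.1 j.2).1).trans ?_
      rw [sum_const']
      exact mul_le_of_le hκ ((mk_set_le _).trans hK) le_rfl
    · have esc : ∀ t, Cond κ T t → ∃ z ∈ U k, z ∉ t ∧ z < x := by
        intro t ht
        by_contra hcon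
        push Not at hcon
        refine ht.2 x hx ⟨hl.1, fun y hy => ?_⟩
        obtain ⟨z, hz, h1, h2⟩ := hl.2 y hy
        by_cases hzt : z ∈ t
        · exact ⟨z, hzt, h1, h2⟩
        · exact absurd h2 (not_lt.2 (hcon z hz hzt))
      have hcx : ∀ j, j < k → c j < x := fun j hj => by
        obtain ⟨z, hz, hzt, hzx⟩ := esc _ (h1 j hj)
        by_contra hcon
        exact hzt ((hE j hj).2 z hz _ ((h2' j hj).1 (mem_insert _ _))
          (hzx.le.trans (not_lt.1 hcon)))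
      have hnext : ∀ j, j < k → ∃ i, j < i ∧ i < k := fun j hj => by
        obtain ⟨z, hz, hzt, -⟩ := esc _ (h1 j hj)
        rcases (hmem z).1 hz with hz | ⟨i, hi, hz⟩
        · exact absurd ((h4 j hj).1 hz) hzt
        · rcases lt_trichotomy i j with h | rfl | h
          · exact absurd ((h5 i j h hj).1 hz) hzt
          · exact absurd hz hzt
          · exact ⟨i, h, hi⟩
      have hfirst : ∃ j, j < k := by
        obtain ⟨z, hz, hzt, -⟩ := esc _ hp
        rcases (hmem z).1 hz with hz | ⟨i, hi, -⟩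
        · exact absurd hz hzt
        · exact ⟨i, hi⟩
      obtain ⟨j0, hj0⟩ := hfirst
      have hle : c k ≤ x := hc3 k x ((hc1 j0).trans (hcx j0 hj0).le) (fun j hj => by
        obtain ⟨i, h, hi⟩ := hnext j hj
        exact (hc2 j i h).trans (hcx i hi).le)
      rcases hle.eq_or_lt with h | h
      · exact hT k (h ▸ hx)
      · obtain ⟨z, hz, h1, -⟩ := hl.2 _ h
        exact lt_asymm h1 (hb z hz)
  have h2 : ∀ j, EE (U j) (s j) := fun j =>
    (EE_insert (key j).2.1).trans (hs j ▸ (he j _ ((key j).1.insert hκ _)).2)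
  exact ⟨s, fun k => ⟨_, (key k).1.insert hκ _, hs k⟩, fun k => (key k).2.2.1.trans (h2 k),
    fun j k h => ((key k).2.2.2 j h).trans (h2 k)⟩

/-- continuous sequences of closure points -/
theorem cont [WellFoundedLT X] (R : Reg X) {K : Type} [LinearOrder K] [WellFoundedLT K]
    (hK : #K < #X) (F : X → X) (a0 : X) : ∃ c : K → X, (∀ k, a0 ≤ c k) ∧
    (∀ j k, j < k → F (c j) ≤ c k) ∧
    (∀ k w, a0 ≤ w → (∀ j, j < k → F (c j) ≤ w) → c k ≤ w) := by
  have hb : ∀ (k : K) (g : ∀ j, j < k → X), ∃ b : X, a0 ≤ b ∧ (∀ j (h : j < k), F (g j h) ≤ b) ∧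
      ∀ w, a0 ≤ w → (∀ j (h : j < k), F (g j h) ≤ w) → b ≤ w := by
    intro k g
    obtain ⟨c, hc⟩ := R.bdd (range fun j : Iio k => F (g j.1 j.2))
      (mk_range_le.trans_lt ((mk_set_le _).trans_lt hK))
    obtain ⟨b, hb, hmin⟩ := (wellFounded_lt (α := X)).has_min
      {b | a0 ≤ b ∧ ∀ j (h : j < k), F (g j h) ≤ b}
      ⟨max a0 c, le_max_left _ _, fun j h => (hc ⟨⟨j, h⟩, rfl⟩).trans (le_max_right _ _)⟩
    exact ⟨b, hb.1, hb.2, fun w h1 h2 => not_lt.1 (hmin w ⟨h1, h2⟩)⟩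
  choose G hG using hb
  let c : K → X := (wellFounded_lt (α := K)).fix G
  have hc : ∀ k, c k = G k fun j _ => c j := fun k => (wellFounded_lt (α := K)).fix_eq G k
  refine ⟨c, fun k => ?_, fun j k h => ?_, fun k w h1 h2 => ?_⟩
  · rw [hc k]; exact (hG k _).1
  · rw [hc k]; exact (hG k fun j _ => c j).2.1 j h
  · rw [hc k]; exact (hG k fun j _ => c j).2.2 w h1 h2

/-- one of many disjoint sets gives a strongly distributive poset -/
theorem distrib [WellFoundedLT X] (R : Reg X) {κ : Cardinal.{0}} (hκ : ℵ₀ ≤ κ) (hX : κ < #X)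
    (har : ∀ a : X, #{t : Set X // t ⊆ Iic a ∧ #t ≤ κ} < #X)
    {K : Type} [LinearOrder K] [WellFoundedLT K] (hK : #K ≤ κ)
    {I : Type} (hI : κ < #I) (hI' : #I < #X) (T : I → Set X)
    (hd : ∀ i j x, x ∈ T i → x ∈ T j → i = j) :
    ∃ i, ∀ D : K → Set (P κ (T i)), (∀ k p, ∃ q, q ≤ p ∧ q ∈ D k) → ∀ p : P κ (T i),
      ∃ s : K → P κ (T i), (∀ k, s k ∈ D k) ∧ (∀ k, s k ≤ p) ∧ ∀ j k, j < k → s k ≤ s j := by
  classical
  by_contra hcon
  push Not at hcon
  choose D hD p hp using hcon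
  choose q hq1 hq2 using hD
  let e : I → K → Set X → Set X := fun i k s =>
    if h : Cond κ (T i) s then (q i k ⟨s, h⟩).1 else ∅
  have he0 : ∀ i k s, #(e i k s) ≤ κ := fun i k s => by
    by_cases h : Cond κ (T i) s
    · simp only [e, dif_pos h]; exact (q i k ⟨s, h⟩).2.1
    · simp [e, dif_neg h]
  have hF : ∀ a : X, ∃ b, a < b ∧
      ∀ r : I × K × {t : Set X // t ⊆ Iic a ∧ #t ≤ κ}, ∀ y ∈ e r.1 r.2.1 r.2.2.1, y < b := by
    intro a
    refine bound R hX ?_ _ (fun r => he0 _ _ _) a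
    rw [mk_prod, mk_prod]; simp only [lift_id]
    exact mul_lt_of_lt R.unc.le hI' (mul_lt_of_lt R.unc.le (hK.trans_lt hX) (har a))
  choose F _ hF using hF
  obtain ⟨a⟩ := R.nonempty
  obtain ⟨a0, -, ha0⟩ := bound R hX hI' (fun i => (p i).1) (fun i => (p i).2.1) a
  obtain ⟨c, hc1, hc2, hc3⟩ := cont R (hK.trans_lt hX) F a0
  have : ∃ i, ∀ k, c k ∉ T i := by
    by_contra h
    push Not at h
    choose f hf using h
    have : #I ≤ #K := mk_le_of_injective (f := f) (fun i j hij => hd i j _ (hf i) (hij ▸ hf j))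
    exact absurd (this.trans hK) (not_le.2 hI)
  obtain ⟨i, hi⟩ := this
  obtain ⟨s, h1, h2, h3⟩ := run hκ hK (T i) F a0 c hc1 hc2 hc3 hi (e i)
    (fun k s h => by
      simp only [e, dif_pos h]; exact ⟨(q i k ⟨s, h⟩).2, hq1 i k ⟨s, h⟩⟩)
    (fun k s a h hs => hF a (i, k, ⟨s, hs, h.1⟩)) (p i).1 (p i).2 (ha0 i)
  choose u hu1 hu2 using h1
  have hs : ∀ k, s k = (q i k ⟨u k, hu1 k⟩).1 := fun k => by
    rw [hu2 k]; simp only [e, dif_pos (hu1 k)]
  obtain ⟨j, k, hjk, hn⟩ := hp i (fun k => q i k ⟨u k, hu1 k⟩) (fun k => hq2 _ _ _)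
    (fun k => by rw [le_iff, ← hs k]; exact h2 k)
  exact hn (by rw [le_iff, ← hs k, ← hs j]; exact h3 j k hjk)

end Pool.Agent.H.MP_77bbd4_lc
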